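import Pool.Agent.Helper84.FS.ExitB
import Pool.Agent.Helper33.FS.Stay
import Pool.Agent.Helper58.FS.Mix
import Pool.Agent.Helper5.FS.Col

/-! # Exit property (MP_75608d_al) -/

set_option autoImplicit false

namespace Pool.Agent.Helper84.FS

open Pool.Agent.Helper38.FS

/-- the exit property -/
theorem exit : S_EXIT :=
  exit_holds Pool.Agent.Helper33.FS.stay
    (Pool.Agent.Helper5.FS.s_col Pool.Agent.Helper58.FS.Mix.mix1 Pool.Agent.Helper58.FS.Mix.mix2)

end Pool.Agent.Helper84.FS
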