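import Pool.Agent.Helper38.FS.Goals2
import Pool.Agent.Helper77.FS.Law

/-!
# Exit property (MP_75608d_al), assembly, part 1: words of a fixed length, lazy words
-/

set_option autoImplicit false

namespace Pool.Agent.Helper84.FS

open Finset Equiv Filter
open Pool.Agent.Helper60.FS (act run pe ZZ FIX run_append run_inj)
open Pool.Agent.Helper3.AK (Alt TupleGap lazyLaw)
open Pool.Agent.Helper38.FS
open Classical

/-- the letter inverse and push of the two files agree -/
theorem push_eq77 {K : ℕ} (l : Lt K) (v : List (Lt K)) :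
    Pool.Agent.Helper38.FS.push l v = Pool.Agent.Helper77.FS.push l v := by
  cases v with
  | nil => simp [Pool.Agent.Helper38.FS.push, Pool.Agent.Helper77.FS.push]
  | cons a v =>
    simp only [Pool.Agent.Helper38.FS.push, Pool.Agent.Helper77.FS.push, inv, List.head?_cons,
      Option.some.injEq, List.tail_cons]
    split_ifs <;> rfl

theorem rdw_eq77 {K : ℕ} : ∀ (J : ℕ) (w : Wd K J),
    Pool.Agent.Helper38.FS.rdw J w = Pool.Agent.Helper77.FS.rdw J (fun i => w (Fin.rev i))
  | 0, _ => rfl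
  | J + 1, w => by
    have h1 : (Fin.init fun i => w (Fin.rev i) : Fin J → Sy K) =
        fun i => (Fin.tail w) (Fin.rev i) := by
      funext i
      show w (Fin.rev (Fin.castSucc i)) = w (Fin.succ (Fin.rev i))
      rw [Fin.rev_castSucc]
    rw [Pool.Agent.Helper77.FS.rdw_succ, h1, ← rdw_eq77 J (Fin.tail w), Fin.rev_last]
    rw [Pool.Agent.Helper38.FS.rdw]
    rw [push_eq77]

/-- probability of an event of the reduced word, by helper77's words -/
theorem prW_rdw {K : ℕ} (J : ℕ) (A : List (Lt K) → Prop) :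
    prW K J (fun w => A (Pool.Agent.Helper38.FS.rdw J w)) =
      ((univ.filter fun w : Fin J → Bool × (Fin K × Bool) =>
        A (Pool.Agent.Helper77.FS.rdw J w)).card : ℝ) / (4 * (K : ℝ)) ^ J := by
  unfold prW
  congr 2
  refine Finset.card_bij (fun w _ => fun i => w (Fin.rev i)) ?_ ?_ ?_
  · intro w hw
    rw [mem_filter] at hw ⊢
    refine ⟨mem_univ _, ?_⟩
    rw [← rdw_eq77]
    exact hw.2
  · intro w _ w' _ h
    funext i
    have := congrFun h (Fin.rev i)
    simpa using this
  · intro w hw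
    refine ⟨fun i => w (Fin.rev i), ?_, ?_⟩
    · rw [mem_filter] at hw ⊢
      refine ⟨mem_univ _, ?_⟩
      rw [rdw_eq77]
      simpa using hw.2
    · funext i
      simp

/-- words of length `j0 + m` which keep `p` in `U` from time `j0` on -/
theorem stay_card (hS : S_STAY) {n K : ℕ} (j0 m : ℕ) (hK : 1 ≤ K) (z : Fin K → Alt n)
    (g1 : TupleGap z 1 (9 / 10)) (U : Finset (Fin n)) (hU : 50 * U.card ≤ n) (p : Fin n) :
    ((univ.filter fun v : Fin (j0 + m) → Lt K => ∀ t, j0 ≤ t → t ≤ j0 + m →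
      run (up z) ((List.ofFn v).take t) p ∈ U).card : ℝ) ≤
    (2 * K) ^ (j0 + m) * ((2 * m + 1) * Real.sqrt n * (57 / 100) ^ (2 * m)) := by
  have h1 : (univ.filter fun v : Fin (j0 + m) → Lt K => ∀ t, j0 ≤ t → t ≤ j0 + m →
      run (up z) ((List.ofFn v).take t) p ∈ U).card ≤
      ∑ a : Fin j0 → Lt K, (univ.filter fun b : Fin m → Lt K =>
        ∀ t ≤ m, run (up z) ((List.ofFn b).take t) (run (up z) (List.ofFn a) p) ∈ U).card := by
    rw [← Finset.card_sigma]
    refine Finset.card_le_card_of_injOn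
      (fun v => ⟨fun i => v (Fin.castAdd m i), fun i => v (Fin.natAdd j0 i)⟩) ?_ ?_
    · intro v hv
      rw [mem_coe, mem_filter] at hv
      rw [mem_coe, mem_sigma]
      refine ⟨mem_univ _, ?_⟩
      rw [mem_filter]
      refine ⟨mem_univ _, fun t ht => ?_⟩
      have h2 := hv.2 (j0 + t) (Nat.le_add_right _ _) (Nat.add_le_add_left ht _)
      have h3 : List.ofFn v = List.ofFn (fun i => v (Fin.castAdd m i)) ++
          List.ofFn (fun i => v (Fin.natAdd j0 i)) := by
        rw [← List.ofFn_fin_append]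
        congr 1
        exact (Fin.append_castAdd_natAdd).symm
      rw [h3, List.take_append, List.length_ofFn, Nat.add_sub_cancel_left,
        List.take_of_length_le (by rw [List.length_ofFn]; exact Nat.le_add_right _ _),
        run_append] at h2
      exact h2
    · intro v _ v' _ h
      simp only [Sigma.mk.injEq, heq_eq_eq] at h
      rw [← Fin.append_castAdd_natAdd (f := v), ← Fin.append_castAdd_natAdd (f := v')]
      rw [h.1, h.2]
  have h2 : ((univ.filter fun v : Fin (j0 + m) → Lt K => ∀ t, j0 ≤ t → t ≤ j0 + m →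
      run (up z) ((List.ofFn v).take t) p ∈ U).card : ℝ) ≤
      ∑ a : Fin j0 → Lt K, ((univ.filter fun b : Fin m → Lt K =>
        ∀ t ≤ m, run (up z) ((List.ofFn b).take t) (run (up z) (List.ofFn a) p) ∈ U).card : ℝ) := by
    exact_mod_cast h1
  refine h2.trans ((Finset.sum_le_sum fun a _ =>
    hS n K m hK z g1 U hU (run (up z) (List.ofFn a) p)).trans (le_of_eq ?_))
  rw [Finset.sum_const, Finset.card_univ, nsmul_eq_mul, Fintype.card_fun, Fintype.card_fin,
    Fintype.card_prod, Fintype.card_bool, Fintype.card_fin, pow_add]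
  push_cast
  ring

/-- NE for words of a fixed length -/
theorem ne_card (hS : S_STAY) (hC : S_COL) {n K : ℕ} (j0 m h : ℕ) (hK : 1 ≤ K) (hn : 2 ≤ n)
    (z : Fin K → Alt n) (g1 : TupleGap z 1 (9 / 10)) (g2 : TupleGap z 2 (9 / 10))
    (P U : Finset (Fin n)) (hU : 50 * U.card ≤ n)
    (hh : (n : ℝ) ^ 2 * (11 / 20) ^ (2 * h) ≤ 1) (h2 : 2 * h ≤ j0) :
    ((univ.filter fun v : Fin (j0 + m) → Lt K => NE (up z) U P j0 (List.ofFn v)).card : ℝ) ≤
    (2 * K) ^ (j0 + m) * (P.card * ((2 * m + 1) * Real.sqrt n * (57 / 100) ^ (2 * m)) +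
      P.card ^ 2 * (j0 + m + 1) ^ 2 * (5 * (2 * (j0 + m) + 1) / n)) := by
  set l := j0 + m with hl
  let S1 : Fin n → Finset (Fin l → Lt K) := fun p => univ.filter fun v : Fin l → Lt K =>
    ∀ t, j0 ≤ t → t ≤ l → run (up z) ((List.ofFn v).take t) p ∈ U
  let S2 : (Fin n × Fin n) × ℕ × ℕ → Finset (Fin l → Lt K) := fun q =>
    univ.filter fun v : Fin l → Lt K => run (up z) ((List.ofFn v).take q.2.2) q.1.1 =
      run (up z) ((List.ofFn v).take q.2.1) q.1.2
  let I2 : Finset ((Fin n × Fin n) × ℕ × ℕ) :=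
    ((P ×ˢ P) ×ˢ (range (l + 1) ×ˢ range (l + 1))).filter fun q =>
      q.1.1 ≠ q.1.2 ∧ q.2.1 < q.2.2 ∧ 2 * h ≤ q.2.2
  have hsub : (univ.filter fun v : Fin l → Lt K => NE (up z) U P j0 (List.ofFn v)) ⊆
      P.biUnion S1 ∪ I2.biUnion S2 := by
    intro v hv
    rw [mem_filter] at hv
    obtain ⟨p, hp, hv⟩ := hv.2
    rw [List.length_ofFn] at hv
    rw [mem_union, mem_biUnion, mem_biUnion]
    by_cases hst : ∀ t, j0 ≤ t → t ≤ l → run (up z) ((List.ofFn v).take t) p ∈ U
    · left
      exact ⟨p, hp, by rw [mem_filter]; exact ⟨mem_univ _, hst⟩⟩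
    · right
      push Not at hst
      obtain ⟨t, ht1, ht2, ht3⟩ := hst
      rcases hv t ht1 ht2 with h4 | ⟨p', hp', hne, t', ht', heq⟩
      · exact absurd h4 ht3
      · have htt : t ≠ t' := by
          rintro rfl
          exact hne (run_inj (up z) _ heq).symm
        rcases lt_or_gt_of_ne htt with hlt | hlt
        · refine ⟨((p', p), t, t'), ?_, ?_⟩
          · rw [mem_filter]
            refine ⟨?_, hne, hlt, h2.trans (ht1.trans hlt.le)⟩
            simp only [mem_product, mem_range]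
            exact ⟨⟨hp', hp⟩, Nat.lt_succ_of_le ht2, Nat.lt_succ_of_le ht'⟩
          · rw [mem_filter]
            exact ⟨mem_univ _, heq.symm⟩
        · refine ⟨((p, p'), t', t), ?_, ?_⟩
          · rw [mem_filter]
            refine ⟨?_, hne.symm, hlt, h2.trans ht1⟩
            simp only [mem_product, mem_range]
            exact ⟨⟨hp, hp'⟩, Nat.lt_succ_of_le ht', Nat.lt_succ_of_le ht2⟩
          · rw [mem_filter]
            exact ⟨mem_univ _, heq⟩
  have hc1 : ((P.biUnion S1).card : ℝ) ≤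
      P.card * ((2 * K) ^ l * ((2 * m + 1) * Real.sqrt n * (57 / 100) ^ (2 * m))) := by
    have h3 : ((P.biUnion S1).card : ℝ) ≤ ∑ p ∈ P, ((S1 p).card : ℝ) := by
      exact_mod_cast card_biUnion_le
    refine h3.trans ((Finset.sum_le_sum fun p _ =>
      stay_card hS j0 m hK z g1 U hU p).trans (le_of_eq ?_))
    rw [Finset.sum_const, nsmul_eq_mul]
  have hI2 : (I2.card : ℝ) ≤ P.card ^ 2 * (l + 1) ^ 2 := by
    have h3 : I2.card ≤ (P.card * P.card) * ((l + 1) * (l + 1)) := by
      refine (card_filter_le _ _).trans (le_of_eq ?_)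
      rw [card_product, card_product, card_product, card_range]
    have h4 : (I2.card : ℝ) ≤ (P.card * P.card) * ((l + 1) * (l + 1)) := by
      exact_mod_cast h3
    refine h4.trans (le_of_eq ?_)
    ring
  have hn0 : (0 : ℝ) < n := by
    have : 0 < n := by omega
    exact_mod_cast this
  have hc2 : ((I2.biUnion S2).card : ℝ) ≤
      P.card ^ 2 * (l + 1) ^ 2 * ((2 * K) ^ l * (5 * (2 * l + 1) / n)) := by
    have h3 : ((I2.biUnion S2).card : ℝ) ≤ ∑ q ∈ I2, ((S2 q).card : ℝ) := by
      exact_mod_cast card_biUnion_le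
    have h5 : ∑ q ∈ I2, ((S2 q).card : ℝ) ≤ ∑ _q ∈ I2, (2 * (K : ℝ)) ^ l * (5 * (2 * l + 1) / n) := by
      refine Finset.sum_le_sum fun q hq => ?_
      rw [mem_filter] at hq
      obtain ⟨hq1, hq2, hq3, hq4⟩ := hq
      simp only [mem_product, mem_range] at hq1
      exact hC n K l h q.2.1 q.2.2 hK hn z g1 g2 hh hq3 (Nat.le_of_lt_succ hq1.2.2) hq4
        q.1.1 q.1.2 hq2
    refine h3.trans (h5.trans ?_)
    rw [Finset.sum_const, nsmul_eq_mul]
    refine mul_le_mul_of_nonneg_right hI2 ?_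
    positivity
  have h6 : ((univ.filter fun v : Fin l → Lt K => NE (up z) U P j0 (List.ofFn v)).card : ℝ) ≤
      ((P.biUnion S1).card : ℝ) + ((I2.biUnion S2).card : ℝ) := by
    exact_mod_cast (card_le_card hsub).trans (card_union_le _ _)
  refine h6.trans ((add_le_add hc1 hc2).trans (le_of_eq ?_))
  rw [hl]
  push_cast
  ring

end Pool.Agent.Helper84.FS
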