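import Pool.Agent.Helper84.FS.ExitA

/-!
# Exit property (MP_75608d_al), assembly, part 2: numbers
-/

set_option autoImplicit false

namespace Pool.Agent.Helper84.FS

open Finset Equiv Filter
open Pool.Agent.Helper60.FS (act run pe ZZ FIX)
open Pool.Agent.Helper3.AK (Alt TupleGap lazyLaw)
open Pool.Agent.Helper38.FS
open Classical

/-- the bound before the numbers -/
theorem exit_raw (hS : S_STAY) (hC : S_COL) {n K : ℕ} (J j0 j1 h : ℕ) (hK : 128 ≤ K)
    (hn : 2 ≤ n) (z : Fin K → Alt n) (g1 : TupleGap z 1 (9 / 10)) (g2 : TupleGap z 2 (9 / 10))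
    (P U : Finset (Fin n)) (hU : 50 * U.card ≤ n)
    (hh : (n : ℝ) ^ 2 * (11 / 20) ^ (2 * h) ≤ 1) (h2 : 2 * h ≤ j0) (hj : j0 ≤ j1)
    (hj1 : 10 * j1 ≤ J) :
    prW K J (fun w => NE (up z) U P j0 (rdw J w) ∨ (rdw J w).length < j1) ≤
      (3 / 4) ^ J + (J + 1) * Real.exp (J / (2 * K - 1)) *
        (P.card * ((2 * J + 1) * Real.sqrt n * (57 / 100) ^ (2 * (j1 - j0))) +
          P.card ^ 2 * (J + 1) ^ 2 * (5 * (2 * J + 1) / n)) := by
  have hK1 : (1 : ℝ) ≤ K := by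
    have : (128 : ℝ) ≤ K := by exact_mod_cast hK
    linarith
  have hq : (0 : ℝ) < 2 * K - 1 := by linarith
  have hn0 : (0 : ℝ) < n := by
    have : 0 < n := by omega
    exact_mod_cast this
  have hcK : Fintype.card (Fin K) = K := Fintype.card_fin K
  set B : ℝ := P.card * ((2 * J + 1) * Real.sqrt n * (57 / 100) ^ (2 * (j1 - j0))) +
          P.card ^ 2 * (J + 1) ^ 2 * (5 * (2 * J + 1) / n) with hB
  have hB0 : 0 ≤ B := by positivity
  rw [prW_rdw J (fun v => NE (up z) U P j0 v ∨ v.length < j1)]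
  rw [div_le_iff₀ (by positivity)]
  let Ψ : List (Fin K × Bool) → ℝ := fun v => if NE (up z) U P j0 v then 1 else 0
  have hΨ : ∀ v, 0 ≤ Ψ v := fun v => by
    show 0 ≤ (if NE (up z) U P j0 v then (1 : ℝ) else 0)
    split_ifs <;> norm_num
  have hsum := Pool.Agent.Helper77.FS.sum_le_lengths (ι := Fin K) (by rw [hcK]; omega) J j1 Ψ hΨ
  have hlen := Pool.Agent.Helper77.FS.len_le (ι := Fin K) (by rw [hcK]; exact hK) hj1
  rw [hcK] at hsum hlen
  have h3 : ((univ.filter fun w : Fin J → Bool × (Fin K × Bool) =>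
      NE (up z) U P j0 (Pool.Agent.Helper77.FS.rdw J w) ∨
        (Pool.Agent.Helper77.FS.rdw J w).length < j1).card : ℝ) ≤
      ((univ.filter fun w : Fin J → Bool × (Fin K × Bool) =>
        (Pool.Agent.Helper77.FS.rdw J w).length < j1).card : ℝ) +
      ∑ w : Fin J → Bool × (Fin K × Bool), (if j1 ≤ (Pool.Agent.Helper77.FS.rdw J w).length then
        Ψ (Pool.Agent.Helper77.FS.rdw J w) else 0) := by
    rw [← Finset.sum_boole, ← Finset.sum_boole, ← Finset.sum_add_distrib]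
    refine Finset.sum_le_sum fun w _ => ?_
    show (if NE (up z) U P j0 (Pool.Agent.Helper77.FS.rdw J w) ∨
        (Pool.Agent.Helper77.FS.rdw J w).length < j1 then (1 : ℝ) else 0) ≤
      (if (Pool.Agent.Helper77.FS.rdw J w).length < j1 then 1 else 0) +
      (if j1 ≤ (Pool.Agent.Helper77.FS.rdw J w).length then
        (if NE (up z) U P j0 (Pool.Agent.Helper77.FS.rdw J w) then 1 else 0) else 0)
    by_cases ha : NE (up z) U P j0 (Pool.Agent.Helper77.FS.rdw J w) <;>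
    by_cases hb : (Pool.Agent.Helper77.FS.rdw J w).length < j1
    · simp [ha, hb, not_le.2 hb]
    · simp [ha, hb, not_lt.1 hb]
    · simp [ha, hb, not_le.2 hb]
    · simp [ha, hb]
  have h4 : ∑ ℓ ∈ Finset.Icc j1 J, ((2 * (K : ℝ) - 1) ^ ℓ)⁻¹ *
      ∑ v : Fin ℓ → Fin K × Bool, Ψ (List.ofFn v) ≤
      (J + 1) * Real.exp (J / (2 * K - 1)) * B := by
    have h5 : ∀ ℓ ∈ Finset.Icc j1 J, ((2 * (K : ℝ) - 1) ^ ℓ)⁻¹ *
        ∑ v : Fin ℓ → Fin K × Bool, Ψ (List.ofFn v) ≤ Real.exp (J / (2 * K - 1)) * B := by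
      intro ℓ hℓ
      rw [Finset.mem_Icc] at hℓ
      obtain ⟨m, rfl⟩ : ∃ m, ℓ = j0 + m := ⟨ℓ - j0, by omega⟩
      have h6 : ∑ v : Fin (j0 + m) → Fin K × Bool, Ψ (List.ofFn v) =
          ((univ.filter fun v : Fin (j0 + m) → Lt K =>
            NE (up z) U P j0 (List.ofFn v)).card : ℝ) := by
        rw [← Finset.sum_boole]
      have h7 := ne_card hS hC j0 m h (by omega) hn z g1 g2 P U hU hh h2
      have hmJ : (j0 : ℝ) + m ≤ J := by exact_mod_cast hℓ.2
      have hmJ' : (m : ℝ) ≤ J := by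
        have : (0 : ℝ) ≤ j0 := Nat.cast_nonneg _
        linarith
      have h8 : P.card * ((2 * m + 1) * Real.sqrt n * (57 / 100) ^ (2 * m)) +
          P.card ^ 2 * (j0 + m + 1) ^ 2 * (5 * (2 * (j0 + m) + 1) / n) ≤ B := by
        rw [hB]
        have h9 : ((57 : ℝ) / 100) ^ (2 * m) ≤ (57 / 100) ^ (2 * (j1 - j0)) :=
          pow_le_pow_of_le_one (by norm_num) (by norm_num) (by omega)
        gcongr
      have h10 : (2 * (K : ℝ)) ^ (j0 + m) ≤
          (2 * (K : ℝ) - 1) ^ (j0 + m) * Real.exp (J / (2 * K - 1)) := by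
        have h11 : 2 * (K : ℝ) ≤ (2 * K - 1) * Real.exp (1 / (2 * K - 1)) := by
          have h12 := Real.add_one_le_exp (1 / (2 * (K : ℝ) - 1))
          have h13 : (2 * (K : ℝ) - 1) * (1 / (2 * (K : ℝ) - 1) + 1) = 2 * K := by
            field_simp
            ring
          calc 2 * (K : ℝ) = (2 * (K : ℝ) - 1) * (1 / (2 * (K : ℝ) - 1) + 1) := h13.symm
            _ ≤ _ := mul_le_mul_of_nonneg_left h12 hq.le
        calc (2 * (K : ℝ)) ^ (j0 + m) ≤ ((2 * K - 1) * Real.exp (1 / (2 * K - 1))) ^ (j0 + m) :=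
              pow_le_pow_left₀ (by positivity) h11 _
          _ = (2 * (K : ℝ) - 1) ^ (j0 + m) * Real.exp ((j0 + m : ℕ) * (1 / (2 * K - 1))) := by
              rw [mul_pow, ← Real.exp_nat_mul]
          _ ≤ (2 * (K : ℝ) - 1) ^ (j0 + m) * Real.exp (J / (2 * K - 1)) := by
              refine mul_le_mul_of_nonneg_left (Real.exp_le_exp.2 ?_) (by positivity)
              rw [mul_one_div]
              push_cast
              gcongr
      rw [h6, inv_mul_le_iff₀ (by positivity)]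
      refine h7.trans ?_
      calc (2 * (K : ℝ)) ^ (j0 + m) * _ ≤ ((2 * (K : ℝ) - 1) ^ (j0 + m) *
            Real.exp (J / (2 * K - 1))) * B :=
            mul_le_mul h10 h8 (by positivity) (by positivity)
        _ = _ := by ring
    refine (Finset.sum_le_sum h5).trans ?_
    rw [Finset.sum_const, nsmul_eq_mul, mul_assoc]
    refine mul_le_mul_of_nonneg_right ?_ (by positivity)
    have h14 : (Finset.Icc j1 J).card ≤ J + 1 := by
      rw [Nat.card_Icc]
      omega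
    exact_mod_cast h14
  have h15 := hsum.trans (mul_le_mul_of_nonneg_left h4 (by positivity : (0 : ℝ) ≤ (4 * (K : ℝ)) ^ J))
  refine le_trans (le_of_eq ?_) ((h3.trans (add_le_add hlen h15)).trans (le_of_eq ?_))
  · congr!
  · ring

theorem jj_bounds {n : ℕ} (_hx : 0 ≤ Real.log n) :
    200 * Real.log n ≤ jj n ∧ (jj n : ℝ) ≤ 200 * Real.log n + 2 := by
  unfold jj
  have h1 := Nat.le_ceil (100 * Real.log n)
  have h2 := Nat.ceil_lt_add_one (by positivity : (0 : ℝ) ≤ 100 * Real.log n)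
  push_cast
  constructor <;> linarith

theorem ev_num : ∀ᶠ n : ℕ in atTop, 2 ≤ n ∧ 100 ≤ (n : ℝ) ^ (0.01 : ℝ) ∧
    400 * Real.log n + 6 ≤ (n : ℝ) ^ (0.01 : ℝ) ∧ 1 ≤ Real.log n := by
  have h1 : ∀ᶠ x : ℝ in atTop, 100 ≤ x ^ (0.01 : ℝ) :=
    (tendsto_rpow_atTop (by norm_num)).eventually_ge_atTop 100
  have h2 : ∀ᶠ x : ℝ in atTop, ‖Real.log x‖ ≤ (1 / 1000) * ‖x ^ (0.01 : ℝ)‖ :=
    (isLittleO_log_rpow_atTop (by norm_num : (0 : ℝ) < 0.01)).bound (by norm_num)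
  have h3 : ∀ᶠ x : ℝ in atTop, 1 ≤ Real.log x := Real.tendsto_log_atTop.eventually_ge_atTop 1
  have h4 : ∀ᶠ x : ℝ in atTop, 2 ≤ x := eventually_ge_atTop 2
  have h5 : ∀ᶠ x : ℝ in atTop, 2 ≤ x ∧ 100 ≤ x ^ (0.01 : ℝ) ∧
      400 * Real.log x + 6 ≤ x ^ (0.01 : ℝ) ∧ 1 ≤ Real.log x := by
    filter_upwards [h1, h2, h3, h4] with x h1 h2 h3 h4
    refine ⟨h4, h1, ?_, h3⟩
    rw [Real.norm_of_nonneg (by linarith), Real.norm_of_nonneg (by linarith)] at h2
    linarith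
  have h6 := tendsto_natCast_atTop_atTop.eventually h5
  filter_upwards [h6] with n hn
  exact ⟨by exact_mod_cast hn.1, hn.2⟩

theorem num_aux {N J P n s5 e34 eK : ℝ} (hN : 100 ≤ N) (hJ0 : 0 ≤ J) (hJ : 2 * J + 1 ≤ N)
    (hJ1 : J + 1 ≤ N) (hP0 : 0 ≤ P) (hP : P ≤ N ^ 10) (hn : n = N ^ 100)
    (h57 : s5 ≤ 3 * (N ^ 100)⁻¹) (h570 : 0 ≤ s5) (h34 : e34 ≤ (N ^ 60)⁻¹) (heK : eK ≤ 3 * N)
    (heK0 : 0 ≤ eK) :
    e34 + (J + 1) * eK * (P * ((2 * J + 1) * N ^ 50 * s5) +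
      P ^ 2 * (J + 1) ^ 2 * (5 * (2 * J + 1) / n)) ≤ (N ^ 30)⁻¹ := by
  have hN0 : 0 < N := by linarith
  subst hn
  have hB : P * ((2 * J + 1) * N ^ 50 * s5) + P ^ 2 * (J + 1) ^ 2 * (5 * (2 * J + 1) / N ^ 100) ≤
      N ^ 10 * (N * N ^ 50 * (3 * (N ^ 100)⁻¹)) + (N ^ 10) ^ 2 * N ^ 2 * (5 * N / N ^ 100) := by
    gcongr
  have hB0 : 0 ≤ P * ((2 * J + 1) * N ^ 50 * s5) +
      P ^ 2 * (J + 1) ^ 2 * (5 * (2 * J + 1) / N ^ 100) := by positivity
  refine (add_le_add h34 (mul_le_mul (mul_le_mul hJ1 heK heK0 hN0.le) hB hB0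
    (by positivity))).trans ?_
  have hNi : 0 < N⁻¹ := inv_pos.2 hN0
  have hNi1 : N⁻¹ ≤ 1 / 100 := by
    rw [inv_le_comm₀ hN0 (by norm_num)]
    norm_num
    exact hN
  have hNi2 : N⁻¹ ≤ 1 := by linarith
  have hNN : N * N⁻¹ = 1 := mul_inv_cancel₀ hN0.ne'
  generalize hM : N⁻¹ = M at *
  have t1 : (N ^ 60)⁻¹ = M ^ 30 * M ^ 30 := by
    rw [← inv_pow, hM, ← pow_add]
  have t2 : N * (3 * N) * (N ^ 10 * (N * N ^ 50 * (3 * (N ^ 100)⁻¹)) +
      (N ^ 10) ^ 2 * N ^ 2 * (5 * N / N ^ 100)) =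
      9 * M ^ 37 + 15 * M ^ 75 := by
    rw [div_eq_mul_inv, ← inv_pow, hM]
    have s1 : N ^ 63 * M ^ 100 = M ^ 37 := by
      calc N ^ 63 * M ^ 100 = (N * M) ^ 63 * M ^ 37 := by ring
        _ = M ^ 37 := by rw [hNN, one_pow, one_mul]
    have s2 : N ^ 25 * M ^ 100 = M ^ 75 := by
      calc N ^ 25 * M ^ 100 = (N * M) ^ 25 * M ^ 75 := by ring
        _ = M ^ 75 := by rw [hNN, one_pow, one_mul]
    rw [← s1, ← s2]
    ring
  rw [t1, t2, ← inv_pow, hM]
  have p1 : M ^ 30 ≤ 1 / 100 := by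
    calc M ^ 30 ≤ M ^ 1 := pow_le_pow_of_le_one hNi.le hNi2 (by norm_num)
      _ ≤ 1 / 100 := by rw [pow_one]; exact hNi1
  have p2 : M ^ 7 ≤ 1 / 100 := by
    calc M ^ 7 ≤ M ^ 1 := pow_le_pow_of_le_one hNi.le hNi2 (by norm_num)
      _ ≤ 1 / 100 := by rw [pow_one]; exact hNi1
  have p3 : M ^ 45 ≤ 1 / 100 := by
    calc M ^ 45 ≤ M ^ 1 := pow_le_pow_of_le_one hNi.le hNi2 (by norm_num)
      _ ≤ 1 / 100 := by rw [pow_one]; exact hNi1
  have q0 : 0 < M ^ 30 := pow_pos hNi 30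
  have q2 : M ^ 37 = M ^ 30 * M ^ 7 := by rw [← pow_add]
  have q3 : M ^ 75 = M ^ 30 * M ^ 45 := by rw [← pow_add]
  rw [q2, q3]
  nlinarith [mul_le_mul_of_nonneg_left p1 q0.le, mul_le_mul_of_nonneg_left p2 q0.le,
    mul_le_mul_of_nonneg_left p3 q0.le]

theorem exit_holds (hS : S_STAY) (hC : S_COL) : S_EXIT := by
  intro K hK
  obtain ⟨n₀, hn₀⟩ := eventually_atTop.1 ev_num
  refine ⟨n₀, fun n hn z g1 g2 P U hP hU => ?_⟩
  obtain ⟨hn2, hN, hlog, hx⟩ := hn₀ n hn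
  have hKR : (20000 : ℝ) ≤ K := by exact_mod_cast hK
  have hn0 : (0 : ℝ) < n := by
    have : 0 < n := by omega
    exact_mod_cast this
  set x : ℝ := Real.log n with hxdef
  set N : ℝ := (n : ℝ) ^ (0.01 : ℝ) with hNdef
  have hN0 : 0 < N := by linarith
  obtain ⟨hJ1, hJ2⟩ := jj_bounds (n := n) (by linarith)
  set J := jj n with hJ
  -- natural divisions
  have hd1 : J / 20 ≤ J / 10 := Nat.div_le_div_left (by norm_num) (by norm_num)
  have hd2 : 10 * (J / 10) ≤ J := Nat.mul_div_le J 10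
  have hd3 : (J : ℝ) ≤ 20 * (J / 10 - J / 20 : ℕ) + 20 := by
    have : J ≤ 20 * (J / 10 - J / 20) + 20 := by omega
    exact_mod_cast this
  have hd4 : (J : ℝ) ≤ 40 * (J / 20 / 2 : ℕ) + 60 := by
    have : J ≤ 40 * (J / 20 / 2) + 60 := by omega
    exact_mod_cast this
  have hd5 : 2 * (J / 20 / 2) ≤ J / 20 := Nat.mul_div_le _ 2
  have e1 : (0.6 : ℝ) ≤ Real.exp (-(1 / 2)) := by
    have h1 := Real.exp_one_lt_d9
    have h2 : Real.exp (-(1 / 2)) ^ 2 = (Real.exp 1)⁻¹ := by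
      rw [← Real.exp_nat_mul, ← Real.exp_neg]
      norm_num
    have h3 : (0.36 : ℝ) ≤ (Real.exp 1)⁻¹ := by
      rw [le_inv_comm₀ (by norm_num) (Real.exp_pos 1)]
      norm_num
      linarith
    have h4 := Real.exp_pos (-(1 / 2) : ℝ)
    nlinarith
  have e2 : (3 / 4 : ℝ) ≤ Real.exp (-(1 / 4)) := by
    have h1 := Real.add_one_le_exp (-(1 / 4) : ℝ)
    linarith
  -- powers of N
  have hNpow : ∀ k : ℕ, N ^ k = Real.exp (k * (0.01 * x)) := by
    intro k
    rw [Real.exp_nat_mul, hNdef, Real.rpow_def_of_pos hn0, ← hxdef, mul_comm x]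
  have hPN : (P.card : ℝ) ≤ N ^ 10 := by
    refine hP.trans (le_of_eq ?_)
    rw [hNpow, Real.rpow_def_of_pos hn0, ← hxdef]
    congr 1
    norm_num
    ring
  have hnN : (n : ℝ) = N ^ 100 := by
    rw [hNpow]
    have h1 : ((100 : ℕ) : ℝ) * (0.01 * x) = x := by
      push_cast
      ring
    rw [h1, hxdef, Real.exp_log hn0]
  have hsq : Real.sqrt n = N ^ 50 := by
    rw [hnN]
    have h1 : N ^ 100 = (N ^ 50) ^ 2 := by ring
    rw [h1, Real.sqrt_sq (by positivity)]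
  have hout : (n : ℝ) ^ (-0.3 : ℝ) = (N ^ 30)⁻¹ := by
    rw [hNpow, ← Real.exp_neg, Real.rpow_def_of_pos hn0, ← hxdef]
    congr 1
    norm_num
    ring
  have h57 : ((57 : ℝ) / 100) ^ (2 * (J / 10 - J / 20)) ≤ Real.exp 1 * (N ^ 100)⁻¹ := by
    calc ((57 : ℝ) / 100) ^ (2 * (J / 10 - J / 20))
        ≤ Real.exp (-(1 / 2)) ^ (2 * (J / 10 - J / 20)) :=
          pow_le_pow_left₀ (by norm_num) (by linarith) _
      _ = Real.exp (-((J / 10 - J / 20 : ℕ) : ℝ)) := by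
          rw [← Real.exp_nat_mul]
          congr 1
          push_cast
          ring
      _ ≤ Real.exp (1 - x) := by
          refine Real.exp_le_exp.2 ?_
          linarith
      _ = _ := by
          rw [hNpow, ← Real.exp_neg, ← Real.exp_add]
          congr 1
          push_cast
          ring
  have hh : (n : ℝ) ^ 2 * (11 / 20) ^ (2 * (J / 20 / 2)) ≤ 1 := by
    have h1 : ((11 : ℝ) / 20) ^ (2 * (J / 20 / 2)) ≤ Real.exp (-((J / 20 / 2 : ℕ) : ℝ)) := by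
      calc ((11 : ℝ) / 20) ^ (2 * (J / 20 / 2))
          ≤ Real.exp (-(1 / 2)) ^ (2 * (J / 20 / 2)) :=
            pow_le_pow_left₀ (by norm_num) (by linarith) _
        _ = _ := by
            rw [← Real.exp_nat_mul]
            congr 1
            push_cast
            ring
    have h2 : (n : ℝ) ^ 2 = Real.exp (2 * x) := by
      rw [hxdef, two_mul, Real.exp_add, Real.exp_log hn0]
      ring
    calc (n : ℝ) ^ 2 * (11 / 20) ^ (2 * (J / 20 / 2))
        ≤ Real.exp (2 * x) * Real.exp (-((J / 20 / 2 : ℕ) : ℝ)) := by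
          rw [h2]
          exact mul_le_mul_of_nonneg_left h1 (Real.exp_pos _).le
      _ = Real.exp (2 * x - ((J / 20 / 2 : ℕ) : ℝ)) := by
          rw [← Real.exp_add]
          congr 1
      _ ≤ Real.exp 0 := by
          refine Real.exp_le_exp.2 ?_
          linarith
      _ = 1 := Real.exp_zero
  have h34 : ((3 : ℝ) / 4) ^ J ≤ (N ^ 60)⁻¹ := by
    calc ((3 : ℝ) / 4) ^ J ≤ Real.exp (-(1 / 4)) ^ J := pow_le_pow_left₀ (by norm_num) e2 _
      _ = Real.exp (-(J / 4 : ℝ)) := by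
          rw [← Real.exp_nat_mul]
          congr 1
          ring
      _ ≤ Real.exp (-(0.6 * x)) := by
          refine Real.exp_le_exp.2 ?_
          linarith
      _ = _ := by
          rw [hNpow, ← Real.exp_neg]
          congr 1
          push_cast
          ring
  have hexpK : Real.exp (J / (2 * K - 1)) ≤ Real.exp 1 * N := by
    have h1 : N = Real.exp (0.01 * x) := by
      have := hNpow 1
      rw [pow_one] at this
      rw [this]
      congr 1
      push_cast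
      ring
    rw [h1, ← Real.exp_add]
    refine Real.exp_le_exp.2 ?_
    rw [div_le_iff₀ (by linarith)]
    have h2 : (1 + 0.01 * x) * 39999 ≤ (1 + 0.01 * x) * (2 * K - 1) :=
      mul_le_mul_of_nonneg_left (by linarith) (by linarith)
    linarith
  have hJN1 : (J : ℝ) + 1 ≤ N := by linarith
  have hJN2 : 2 * (J : ℝ) + 1 ≤ N := by linarith
  have hraw := exit_raw hS hC J (J / 20) (J / 10) (J / 20 / 2) (by omega) hn2 z g1 g2 P U hU hh
    hd5 hd1 hd2
  refine hraw.trans ?_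
  rw [hout]
  have hE : Real.exp 1 ≤ 3 := by
    have := Real.exp_one_lt_d9
    linarith
  rw [hsq]
  exact num_aux hN (Nat.cast_nonneg _) hJN2 hJN1 (Nat.cast_nonneg _) hPN hnN
    (h57.trans (mul_le_mul_of_nonneg_right hE (inv_nonneg.2 (pow_nonneg hN0.le _))))
    (pow_nonneg (by norm_num) _) h34
    (hexpK.trans (mul_le_mul_of_nonneg_right hE hN0.le)) (Real.exp_pos _).le

end Pool.Agent.Helper84.FS
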